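import Mathlib
import Pool.Agent.MP_a320f3_co.Defs
import Pool.Agent.MP_a320f3_co.Final

namespace Pool.Agent.Results.MP_a320f3_co.VertexEdge

open Pool.Agent.MP_a320f3_co

/-- For every field `k` and every finite simple graph `G` whose flag complex is acyclic over `k`
and has dimension `n` (the largest clique has `n + 1` vertices),
`n (v ^ 2 - 2 e - 1) ≥ (v - 1) ^ 2`. -/
theorem result {k : Type*} [Field k] {V : Type*} [Fintype V] [LinearOrder V]
    (G : SimpleGraph V) (n : ℕ) (hn : G.cliqueNum = n + 1) (hG : IsAcyclic k G) :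
    ((Fintype.card V : ℤ) - 1) ^ 2 ≤
      n * ((Fintype.card V : ℤ) ^ 2 - 2 * (G.edgeSet.ncard : ℤ) - 1) :=
  vertex_edge_ineq G n hn hG

end Pool.Agent.Results.MP_a320f3_co.VertexEdge
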